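import Pool.Agent.T9h80.EX.Zer

set_option autoImplicit false

open Complex Filter Topology Metric Set
open Pool.Agent.Helper797.Bs
open Pool.Agent.K7.H38.MD

namespace Pool.Agent.T9h80.EX

/-- the weights of the quadrature formula -/
noncomputable def tk (k : ℤ) (z w : ℝ) : ℝ :=
  ((k:ℝ) * Real.pi) ^ 2 / ((((k:ℝ) * Real.pi) ^ 2 - z ^ 2) * (((k:ℝ) * Real.pi) ^ 2 - w ^ 2))

lemma tk_nonneg (k : ℤ) {z w : ℝ} (hz0 : 0 < z) (hz1 : z < Real.pi) (hw0 : 0 < w)
    (hw1 : w < Real.pi) : 0 ≤ tk k z w := by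
  unfold tk
  by_cases hk : k = 0
  · rw [hk]; simp
  · have h5 := k_sq hk
    have h6 : z ^ 2 < Real.pi ^ 2 := by nlinarith
    have h7 : w ^ 2 < Real.pi ^ 2 := by nlinarith
    apply div_nonneg (sq_nonneg _)
    apply mul_nonneg <;> linarith

/-- divided difference -/
noncomputable def D (g : ℂ → ℂ) (z w : ℝ) : ℂ :=
  (hfun g z - hfun g w) / ((z:ℂ) ^ 2 - (w:ℂ) ^ 2)

/-- the normalized node value -/
noncomputable def nv (g : ℂ → ℂ) (k : ℤ) : ℂ :=
  g ((k:ℂ) * Real.pi) / Complex.cos ((k:ℂ) * Real.pi)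

lemma cos_k_ne (k : ℤ) : Complex.cos ((k:ℂ) * Real.pi) ≠ 0 := by
  intro h
  have := norm_cos_int k
  rw [h, norm_zero] at this
  norm_num at this

lemma nv_cos (k : ℤ) : nv Complex.cos k = 1 := div_self (cos_k_ne k)

lemma nv_norm {g : ℂ → ℂ} {k : ℤ} (h : ‖g ((k:ℂ) * Real.pi)‖ ≤ 1) : ‖nv g k‖ ≤ 1 := by
  unfold nv
  rw [norm_div, norm_cos_int, div_one]; exact h

lemma SN_eq (g : ℂ → ℂ) (z w : ℝ) (N : ℕ) :
    SN g z w N = ∑ k ∈ Finset.Icc (-(N:ℤ)) N, (tk k z w : ℂ) * nv g k := by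
  unfold SN tk nv
  apply Finset.sum_congr rfl
  intro k _
  push_cast
  rw [div_mul_div_comm, mul_comm (Complex.cos _)]

lemma SN_re (g : ℂ → ℂ) (z w : ℝ) (N : ℕ) :
    (SN g z w N + SN Complex.cos z w N).re
      = ∑ k ∈ Finset.Icc (-(N:ℤ)) N, tk k z w * ((nv g k).re + 1) := by
  rw [SN_eq, SN_eq, ← Finset.sum_add_distrib, Complex.re_sum]
  apply Finset.sum_congr rfl
  intro k _
  rw [nv_cos, ← mul_add, Complex.re_ofReal_mul]
  simp

/-- one term of the quadrature formula -/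
lemma term_ineq {g : ℂ → ℂ} (hg : Differentiable ℂ g) (hev : ∀ s, g (-s) = g s) {C : ℝ} (hC : 0 ≤ C)
    (hgC : ∀ s, ‖g s‖ ≤ C * Real.exp |s.im|)
    (hgM : ∀ k : ℤ, k ≠ 0 → ‖g ((k:ℂ) * Real.pi)‖ ≤ 1) {z w : ℝ}
    (hz0 : 0 < z) (hz1 : z < Real.pi) (hw0 : 0 < w) (hw1 : w < Real.pi) (hzw : z ≠ w) (k : ℤ) :
    (D g z w + D Complex.cos z w).re + tk k z w * ((nv g k).re + 1) ≤ 0 := by
  have hcosC : ∀ s, ‖Complex.cos s‖ ≤ 1 * Real.exp |s.im| := by
    intro s; rw [one_mul]; exact norm_cos_le s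
  have hfin : ∀ N : ℕ, 1 ≤ N → k.natAbs ≤ N →
      (D g z w + D Complex.cos z w).re + tk k z w * ((nv g k).re + 1) ≤ (C + 1) * (9 / N) := by
    intro N hN hkN
    have h1 := gen hg hev hC hgC hz0 hz1 hw0 hw1 hzw hN
    have h2 := gen Complex.differentiable_cos Complex.cos_neg zero_le_one hcosC hz0 hz1 hw0 hw1 hzw hN
    have h3 : tk k z w * ((nv g k).re + 1) ≤ (SN g z w N + SN Complex.cos z w N).re := by
      rw [SN_re]
      refine Finset.single_le_sum (f := fun k => tk k z w * ((nv g k).re + 1)) ?_ ?_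
      · intro j _
        by_cases hj : j = 0
        · subst hj
          simp [tk]
        · apply mul_nonneg (tk_nonneg j hz0 hz1 hw0 hw1)
          have h5 := nv_norm (hgM j hj)
          have h6 := (abs_le.1 ((Complex.abs_re_le_norm (nv g j)).trans h5)).1
          linarith
      · rw [Finset.mem_Icc]; omega
    have h4 : (D g z w + D Complex.cos z w).re + (SN g z w N + SN Complex.cos z w N).re
        ≤ ‖SN g z w N + D g z w‖ + ‖SN Complex.cos z w N + D Complex.cos z w‖ := by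
      have h5 := Complex.re_le_norm (SN g z w N + D g z w)
      have h6 := Complex.re_le_norm (SN Complex.cos z w N + D Complex.cos z w)
      simp only [Complex.add_re] at h5 h6 ⊢
      linarith
    have h1' : ‖SN g z w N + D g z w‖ ≤ C * (9 / N) := h1
    have h2' : ‖SN Complex.cos z w N + D Complex.cos z w‖ ≤ 1 * (9 / N) := h2
    linarith
  have ht : Tendsto (fun N : ℕ => (C + 1) * (9 / (N:ℝ))) atTop (𝓝 ((C + 1) * 0)) :=
    (tendsto_const_div_atTop_nhds_zero_nat 9).const_mul (C + 1)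
  rw [mul_zero] at ht
  refine ge_of_tendsto ht ?_
  filter_upwards [eventually_ge_atTop 1, eventually_ge_atTop k.natAbs] with N hN hN2
  exact hfin N hN hN2

lemma D_tendsto {g : ℂ → ℂ} {H' : ℂ} {b : ℝ} (hb : 0 < b)
    (h1 : HasDerivAt (fun x : ℝ => hfun g x) H' b) :
    Tendsto (fun x : ℝ => D g x b) (𝓝[≠] b) (𝓝 (H' / (2 * b))) := by
  have t1 := h1.tendsto_slope
  have t2 : Tendsto (fun x : ℝ => ((x + b : ℝ) : ℂ)) (𝓝[≠] b) (𝓝 ((b + b : ℝ) : ℂ)) := by
    have : Continuous (fun x : ℝ => ((x + b : ℝ) : ℂ)) := by fun_prop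
    exact (this.tendsto b).mono_left nhdsWithin_le_nhds
  have hbb : ((b + b : ℝ) : ℂ) ≠ 0 := by exact_mod_cast (by positivity : (b + b) ≠ 0)
  have t3 := t1.div t2 hbb
  have e : H' / ((b + b : ℝ) : ℂ) = H' / (2 * b) := by push_cast; rw [two_mul]
  rw [e] at t3
  refine t3.congr' ?_
  filter_upwards with x
  simp only [Pi.div_apply]
  rw [slope_def_module, Complex.real_smul]
  unfold D
  have e2 : (x:ℂ) ^ 2 - (b:ℂ) ^ 2 = (x - b) * (x + b) := by ring
  rw [e2, div_mul_eq_div_div]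
  push_cast
  rw [inv_mul_eq_div]

lemma tk_tendsto {k : ℤ} (hk : k ≠ 0) :
    Tendsto (fun x : ℝ => tk k x a) (𝓝[≠] a) (𝓝 (tk k a a)) := by
  have h : ContinuousAt (fun x : ℝ => tk k x a) a := by
    unfold tk
    apply ContinuousAt.div (by fun_prop) (by fun_prop)
    have h1 := a_sq_lt
    have h2 := k_sq hk
    have : 0 < ((k:ℝ) * Real.pi) ^ 2 - a ^ 2 := by linarith
    positivity
  exact h.tendsto.mono_left nhdsWithin_le_nhds

lemma tk_pos {k : ℤ} (hk : k ≠ 0) : 0 < tk k a a := by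
  unfold tk
  have h1 := a_sq_lt
  have h2 := k_sq hk
  have h3 : 0 < ((k:ℝ) * Real.pi) ^ 2 - a ^ 2 := by linarith
  have h4 : 0 < ((k:ℝ) * Real.pi) ^ 2 := by linarith [sq_nonneg a]
  positivity

lemma eq_neg_one {c : ℂ} (h1 : ‖c‖ ≤ 1) (h2 : c.re ≤ -1) : c = -1 := by
  have h3 : c.re ^ 2 + c.im ^ 2 ≤ 1 := by
    have := Complex.sq_norm c
    rw [Complex.normSq_apply] at this
    nlinarith [norm_nonneg c]
  have h4 : c.re = -1 := by
    have := (abs_le.1 ((Complex.abs_re_le_norm c).trans h1)).1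
    linarith
  have h5 : c.im = 0 := by
    rw [h4] at h3
    nlinarith [sq_nonneg c.im]
  apply Complex.ext <;> simp [h4, h5]

lemma ev_second {F : ℂ → ℂ} (hF : Differentiable ℂ F) (hev : ∀ s, F (-s) = F s) :
    deriv (deriv F) 0 = 2 * deriv (ev F) 0 := by
  have hGd : Differentiable ℂ (ev F) := ev_differentiable hF hev
  have hdF : deriv F = fun z => 2 * z * deriv (ev F) (z ^ 2) := by
    ext z
    have h1 : HasDerivAt (fun s : ℂ => s ^ 2) (2 * z) z := by
      simpa using hasDerivAt_pow 2 z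
    have h2 : HasDerivAt (ev F) (deriv (ev F) (z ^ 2)) (z ^ 2) := (hGd _).hasDerivAt
    have h3 := h2.comp z h1
    have h4 : (ev F) ∘ (fun s : ℂ => s ^ 2) = F := by ext s; exact ev_eq hev rfl
    rw [h4] at h3
    rw [h3.deriv]; ring
  rw [hdF]
  have hGd2 : Differentiable ℂ (deriv (ev F)) := hGd.deriv
  have h1 : HasDerivAt (fun z : ℂ => 2 * z) 2 (0:ℂ) := by
    simpa using (hasDerivAt_id (0:ℂ)).const_mul 2
  have h2 : DifferentiableAt ℂ (fun z : ℂ => deriv (ev F) (z ^ 2)) 0 :=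
    (hGd2.comp (by fun_prop)) 0
  have h3 := h1.mul h2.hasDerivAt
  have h4 := h3.deriv
  have e : ((fun z : ℂ => 2 * z) * fun z => deriv (ev F) (z ^ 2))
      = fun z => 2 * z * deriv (ev F) (z ^ 2) := rfl
  rw [e] at h4
  rw [h4]; norm_num

lemma a_sq_inv : ((4 / Real.pi ^ 2 : ℝ) : ℂ) = 1 / (a:ℂ) ^ 2 := by
  unfold a
  have hpi : (Real.pi : ℂ) ≠ 0 := by exact_mod_cast Real.pi_ne_zero
  push_cast
  field_simp
  norm_num

lemma a_inv : ((2 / Real.pi : ℝ) : ℂ) = 1 / (a:ℂ) := by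
  unfold a
  have hpi : (Real.pi : ℂ) ≠ 0 := by exact_mod_cast Real.pi_ne_zero
  push_cast
  field_simp

/-- the node values of an even extremal function -/
lemma node_even {F : ℂ → ℂ} (hF : Differentiable ℂ F) (hev : ∀ s, F (-s) = F s)
    (hb : ∀ z, ‖F z‖ ≤ Real.exp |z.im|) (hU : U F = ((2 / Real.pi : ℝ) : ℂ)) {k : ℤ} (hk : k ≠ 0) :
    gs F ((k:ℂ) * Real.pi) = - Complex.cos ((k:ℂ) * Real.pi) := by
  have hac : (a:ℂ) ≠ 0 := by exact_mod_cast a_pos.ne'
  have hb1 : ∀ z, ‖F z‖ ≤ 1 * Real.exp |z.im| := by simpa using hb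
  have hgd := gs_diff hF hev
  have hgC := gs_bound zero_le_one hb1
  have hgM : ∀ j : ℤ, j ≠ 0 → ‖gs F ((j:ℂ) * Real.pi)‖ ≤ 1 := by
    intro j hj
    rw [gs_node hev hj]
    refine (hb _).trans ?_
    rw [Complex.ofReal_im, abs_zero, Real.exp_zero]
  have hGd : Differentiable ℂ (ev F) := ev_differentiable hF hev
  have hga : HasDerivAt (gs F) (2 * a * deriv (ev F) 0) (a:ℂ) := by
    have h1 : HasDerivAt (fun s : ℂ => s ^ 2 - (a:ℂ) ^ 2) (2 * (a:ℂ)) (a:ℂ) := by
      have := ((hasDerivAt_id (a:ℂ)).pow 2).sub_const ((a:ℂ) ^ 2)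
      simpa using this
    have h2 : HasDerivAt (ev F) (deriv (ev F) 0) ((a:ℂ) ^ 2 - (a:ℂ) ^ 2) := by
      rw [sub_self]; exact (hGd 0).hasDerivAt
    have h3 := h2.comp (a:ℂ) h1
    rw [mul_comm] at h3
    exact h3
  have hga0 : gs F a = F 0 := gs_eq hev (by ring)
  have hs := sin_ne a_pos a_lt
  have hH := hasDeriv_hfun hga hs
  have hH0 := hasDeriv_hfun (Complex.hasDerivAt_cos (a:ℂ)) hs
  have e1 : ((gs F a + a * (2 * a * deriv (ev F) 0)) * Complex.sin a - a * gs F a * Complex.cos a)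
      / Complex.sin a ^ 2 = a := by
    rw [sin_a, cos_a, hga0]
    have hU' : deriv (deriv F) 0 + ((4 / Real.pi ^ 2 : ℝ) : ℂ) * F 0 = ((2 / Real.pi : ℝ) : ℂ) := hU
    rw [a_sq_inv, a_inv, ev_second hF hev] at hU'
    field_simp at hU' ⊢
    linear_combination hU'
  have e2 : ((Complex.cos a + a * -Complex.sin a) * Complex.sin a - a * Complex.cos a * Complex.cos a)
      / Complex.sin a ^ 2 = -(a:ℂ) := by
    rw [sin_a, cos_a]; ring
  rw [e1] at hH
  rw [e2] at hH0
  have t1 := D_tendsto a_pos hH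
  have t2 := D_tendsto a_pos hH0
  have t3 := (Complex.continuous_re.tendsto _).comp (t1.add t2)
  have t4 := (tk_tendsto hk).mul_const ((nv (gs F) k).re + 1)
  have t5 := t3.add t4
  have h0 : ((a:ℂ) / (2 * a) + -(a:ℂ) / (2 * a)).re + tk k a a * ((nv (gs F) k).re + 1) ≤ 0 := by
    refine le_of_tendsto t5 ?_
    have h1 : Ioo (0:ℝ) Real.pi ∈ 𝓝 a := Ioo_mem_nhds a_pos a_lt
    filter_upwards [nhdsWithin_le_nhds h1, self_mem_nhdsWithin] with x hx hxa
    exact term_ineq hgd (gs_even F) (by positivity) hgC hgM hx.1 hx.2 a_pos a_lt hxa k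
  have e3 : ((a:ℂ) / (2 * a) + -(a:ℂ) / (2 * a)) = 0 := by ring
  rw [e3, Complex.zero_re, zero_add] at h0
  have h2 : (nv (gs F) k).re + 1 ≤ 0 := by
    by_contra hcon
    push Not at hcon
    have := mul_pos (tk_pos hk) hcon
    linarith
  have h3 := eq_neg_one (nv_norm (hgM k hk)) (by linarith)
  unfold nv at h3
  rw [div_eq_iff (cos_k_ne k)] at h3
  rw [h3]; ring

lemma U_even {F : ℂ → ℂ} (hF : Differentiable ℂ F) : U (fun z => (F z + F (-z)) / 2) = U F := by
  set E : ℂ → ℂ := fun z => (F z + F (-z)) / 2 with hE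
  have hE0 : E 0 = F 0 := by simp only [hE, neg_zero]; ring
  have hE2 : deriv (deriv E) 0 = deriv (deriv F) 0 := by
    have h1 : deriv E = fun z => (deriv F z - deriv F (-z)) / 2 := by
      ext z
      have d1 : HasDerivAt F (deriv F z) z := (hF z).hasDerivAt
      have d2 : HasDerivAt (fun z => F (-z)) (-deriv F (-z)) z := by
        have d3 : HasDerivAt F (deriv F (-z)) (-z) := (hF (-z)).hasDerivAt
        have h := HasDerivAt.comp z d3 (hasDerivAt_neg z)
        rw [mul_neg_one] at h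
        exact h
      have := (d1.add d2).div_const 2
      have e := this.deriv
      have e2 : (fun z => (F + fun z => F (-z)) z / 2) = E := by ext z; rfl
      rw [e2] at e
      rw [e]; ring
    rw [h1]
    have hF' : Differentiable ℂ (deriv F) := hF.deriv
    have d1 : HasDerivAt (deriv F) (deriv (deriv F) 0) 0 := (hF' 0).hasDerivAt
    have d2 : HasDerivAt (fun z => deriv F (-z)) (-deriv (deriv F) 0) 0 := by
      have d3 : HasDerivAt (deriv F) (deriv (deriv F) 0) (-0) := by rw [neg_zero]; exact d1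
      have h := HasDerivAt.comp (0:ℂ) d3 (hasDerivAt_neg 0)
      rw [mul_neg_one] at h
      exact h
    have := (d1.sub d2).div_const 2
    have e := this.deriv
    have e2 : (fun z => (deriv F - fun z => deriv F (-z)) z / 2)
        = fun z => (deriv F z - deriv F (-z)) / 2 := by ext z; rfl
    rw [e2] at e
    rw [e]; ring
  unfold U
  rw [hE0, hE2]

/-- NODE: the values of an extremal function at the nodes -/
theorem node {G : ℂ → ℂ} (hG : Differentiable ℂ G) (hb : ∀ z, ‖G z‖ ≤ Real.exp |z.im|)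
    (hU : U G = ((2 / Real.pi : ℝ) : ℂ)) {x : ℝ} {k : ℤ} (hk : k ≠ 0)
    (hx : x ^ 2 = ((k:ℝ) * Real.pi) ^ 2 - a ^ 2) : G x = -Complex.cos ((k:ℂ) * Real.pi) := by
  have hGn : Differentiable ℂ (fun z => G (-z)) := hG.comp differentiable_neg
  set E : ℂ → ℂ := fun z => (G z + G (-z)) / 2 with hE
  have hEd : Differentiable ℂ E := (hG.add hGn).div_const 2
  have hEev : ∀ s, E (-s) = E s := by intro s; simp only [hE, neg_neg]; ring
  have hEb : ∀ z, ‖E z‖ ≤ Real.exp |z.im| := by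
    intro z
    simp only [hE]
    rw [norm_div]
    have h1 := norm_add_le (G z) (G (-z))
    have h2 := hb z
    have h3 := hb (-z)
    rw [Complex.neg_im, abs_neg] at h3
    have h4 : ‖(2:ℂ)‖ = 2 := by simp
    rw [h4, div_le_iff₀ (by norm_num)]
    linarith
  have h1 := node_even hEd hEev hEb (by rw [U_even hG, hU]) hk
  have h2 : gs E ((k:ℂ) * Real.pi) = E x := by
    apply gs_eq hEev
    have : (((k:ℝ) * Real.pi) ^ 2 : ℝ) = x ^ 2 + a ^ 2 := by linarith
    exact_mod_cast congrArg (fun r : ℝ => (r : ℂ)) this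
  rw [h2] at h1
  simp only [hE] at h1
  have hc := cos_k_ne k
  have hn := norm_cos_int k
  set c := Complex.cos ((k:ℂ) * Real.pi) with hcdef
  have b1 : ‖G x / c‖ ≤ 1 := by
    rw [norm_div, hn, div_one]
    refine (hb _).trans ?_
    rw [Complex.ofReal_im, abs_zero, Real.exp_zero]
  have b2 : ‖G (-(x:ℂ)) / c‖ ≤ 1 := by
    rw [norm_div, hn, div_one]
    refine (hb _).trans ?_
    rw [Complex.neg_im, Complex.ofReal_im, neg_zero, abs_zero, Real.exp_zero]
  have h3 : G x / c + G (-(x:ℂ)) / c = -2 := by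
    field_simp
    linear_combination 2 * h1
  have h4 : (G x / c).re ≤ -1 := by
    have h5 := congrArg Complex.re h3
    rw [Complex.add_re] at h5
    have h6 := (abs_le.1 ((Complex.abs_re_le_norm (G (-(x:ℂ)) / c)).trans b2)).1
    have h7 : (-2 : ℂ).re = -2 := by simp
    rw [h7] at h5
    linarith
  have h5 := eq_neg_one b1 h4
  rw [div_eq_iff hc] at h5
  rw [h5]; ring

end Pool.Agent.T9h80.EX
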