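import Pool.Agent.K7.H38.MD.Norm

set_option autoImplicit false

open Complex Filter Topology Metric Set
open Pool.Agent.Helper797.Bs
open Pool.Agent.K7.H38.MD

namespace Pool.Agent.T9h80.EX

lemma sq_sub_ne {z w : ℝ} (hz0 : 0 < z) (hw0 : 0 < w) (hzw : z ≠ w) :
    (z:ℂ) ^ 2 - (w:ℂ) ^ 2 ≠ 0 := by
  intro h
  have h2 : (z ^ 2 - w ^ 2 : ℝ) = 0 := by exact_mod_cast h
  apply hzw
  have h3 : (z - w) * (z + w) = 0 := by linear_combination h2
  rcases mul_eq_zero.mp h3 with h4 | h4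
  · linarith
  · linarith

/-- the error of the quadrature formula -/
lemma gen {g : ℂ → ℂ} {C : ℝ} (hg : Differentiable ℂ g) (hev : ∀ s, g (-s) = g s) (hC : 0 ≤ C)
    (hgC : ∀ s, ‖g s‖ ≤ C * Real.exp |s.im|) {z w : ℝ}
    (hz0 : 0 < z) (hz1 : z < Real.pi) (hw0 : 0 < w) (hw1 : w < Real.pi) (hzw : z ≠ w)
    {N : ℕ} (hN : 1 ≤ N) :
    ‖SN g z w N + (hfun g z - hfun g w) / ((z:ℂ) ^ 2 - (w:ℂ) ^ 2)‖ ≤ C * (9 / N) := by
  have hpi := Real.pi_pos
  have h1 := circle_bound hC hgC hz0 hz1 hw0 hw1 hN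
  rw [circle_eval hg hev hz0 hz1 hw0 hw1 hzw hN, norm_mul] at h1
  have h2 : ‖(2 * Real.pi * I : ℂ)‖ = 2 * Real.pi := by
    rw [norm_mul, norm_mul, Complex.norm_I, Complex.norm_real, Real.norm_eq_abs, abs_of_pos hpi]
    simp
  rw [h2] at h1
  exact le_of_mul_le_mul_left h1 (by positivity)

/-- ZER in the `s`-plane -/
lemma zer0 {g : ℂ → ℂ} (hg : Differentiable ℂ g) (hev : ∀ s, g (-s) = g s) {C : ℝ} (hC : 0 ≤ C)
    (hgC : ∀ s, ‖g s‖ ≤ C * Real.exp |s.im|) (h0 : ∀ k : ℤ, k ≠ 0 → g ((k:ℂ) * Real.pi) = 0) :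
    ∃ c : ℂ, ∀ s, g s = c * snc s := by
  have hpi := Real.pi_pos
  have hconst : ∀ z w : ℝ, 0 < z → z < Real.pi → 0 < w → w < Real.pi → z ≠ w →
      hfun g z = hfun g w := by
    intro z w hz0 hz1 hw0 hw1 hzw
    have hne2 := sq_sub_ne hz0 hw0 hzw
    have hSN : ∀ N, SN g z w N = 0 := by
      intro N
      unfold SN
      apply Finset.sum_eq_zero
      intro k _
      by_cases hk : k = 0
      · subst hk; simp
      · rw [h0 k hk]; simp
    have hlim : ‖(hfun g z - hfun g w) / ((z:ℂ) ^ 2 - (w:ℂ) ^ 2)‖ ≤ 0 := by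
      have ht : Tendsto (fun N : ℕ => C * (9 / (N:ℝ))) atTop (𝓝 (C * 0)) :=
        (tendsto_const_div_atTop_nhds_zero_nat 9).const_mul C
      rw [mul_zero] at ht
      refine ge_of_tendsto ht ?_
      filter_upwards [eventually_ge_atTop 1] with N hN
      have := gen hg hev hC hgC hz0 hz1 hw0 hw1 hzw hN
      rwa [hSN, zero_add] at this
    have h := norm_le_zero_iff.1 hlim
    rw [div_eq_zero_iff] at h
    rcases h with h | h
    · exact sub_eq_zero.1 h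
    · exact absurd h hne2
  refine ⟨hfun g ((1:ℝ) : ℂ), ?_⟩
  have hreal : ∀ x : ℝ, 0 < x → x < Real.pi → g x = hfun g ((1:ℝ) : ℂ) * snc x := by
    intro x h0 h1
    have hx : hfun g x = hfun g ((1:ℝ) : ℂ) := by
      by_cases h : x = 1
      · rw [h]
      · exact hconst x 1 h0 h1 one_pos (by linarith [Real.pi_gt_three]) h
    have hxc : (x:ℂ) ≠ 0 := by exact_mod_cast h0.ne'
    rw [← hx, snc_ne hxc]
    unfold hfun
    have hs := sin_ne h0 h1
    field_simp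
  have h1 : g = fun s => hfun g ((1:ℝ) : ℂ) * snc s := by
    apply AnalyticOnNhd.eq_of_frequently_eq (z₀ := ((1:ℝ) : ℂ))
    · exact fun z _ => hg.analyticAt z
    · exact fun z _ => (snc_diff.const_mul _).analyticAt z
    · have ht : Tendsto (fun x : ℝ => (x : ℂ)) (𝓝[≠] (1:ℝ)) (𝓝[≠] ((1:ℝ) : ℂ)) := by
        apply tendsto_nhdsWithin_of_tendsto_nhds_of_eventually_within
        · exact (Complex.continuous_ofReal.tendsto 1).mono_left nhdsWithin_le_nhds
        · filter_upwards [self_mem_nhdsWithin] with x hx h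
          have h2 : (x:ℂ) = ((1:ℝ):ℂ) := h
          exact hx (Complex.ofReal_inj.1 h2)
      refine ht.frequently (Eventually.frequently ?_)
      have h2 : Ioo (0:ℝ) Real.pi ∈ 𝓝 (1:ℝ) :=
        Ioo_mem_nhds one_pos (by linarith [Real.pi_gt_three])
      filter_upwards [nhdsWithin_le_nhds h2] with x hx
      exact hreal x hx.1 hx.2
  intro s
  exact congrFun h1 s

lemma a_lt : a < Real.pi := by unfold a; linarith [Real.pi_pos]

lemma k_sq {k : ℤ} (hk : k ≠ 0) : Real.pi ^ 2 ≤ ((k:ℝ) * Real.pi) ^ 2 := by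
  have h4 : (1:ℝ) ≤ (k:ℝ) ^ 2 := by
    have : (1:ℤ) ≤ k ^ 2 := by
      have := Int.one_le_abs hk
      nlinarith [sq_abs k]
    exact_mod_cast this
  rw [mul_pow]; nlinarith [sq_nonneg Real.pi]

lemma a_sq_lt : a ^ 2 < Real.pi ^ 2 := by
  have := a_pos; have := a_lt; nlinarith

/-- the function `E` in the `s`-plane -/
noncomputable def gs (E : ℂ → ℂ) (s : ℂ) : ℂ := ev E (s ^ 2 - (a:ℂ) ^ 2)

lemma gs_diff {E : ℂ → ℂ} (hE : Differentiable ℂ E) (hev : ∀ z, E (-z) = E z) :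
    Differentiable ℂ (gs E) := (ev_differentiable hE hev).comp (by fun_prop)

lemma gs_even (E : ℂ → ℂ) (s : ℂ) : gs E (-s) = gs E s := by unfold gs; rw [neg_sq]

lemma gs_bound {E : ℂ → ℂ} {C : ℝ} (hC : 0 ≤ C) (hb : ∀ z, ‖E z‖ ≤ C * Real.exp |z.im|) (s : ℂ) :
    ‖gs E s‖ ≤ (C * Real.exp |a|) * Real.exp |s.im| := by
  have h1 : gs E s = E (Complex.sqrt (s ^ 2 - (a:ℂ) ^ 2)) := rfl
  rw [h1]
  refine (hb _).trans ?_
  rw [mul_assoc, ← Real.exp_add]
  apply mul_le_mul_of_nonneg_left _ hC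
  apply Real.exp_le_exp.mpr
  have := im_le_of_sub (sq_sqrt (s ^ 2 - (a:ℂ) ^ 2))
  linarith

lemma gs_node {E : ℂ → ℂ} (hev : ∀ z, E (-z) = E z) {k : ℤ} (hk : k ≠ 0) :
    gs E ((k:ℂ) * Real.pi) = E ((Real.sqrt (((k:ℝ) * Real.pi) ^ 2 - a ^ 2) : ℝ) : ℂ) := by
  have h5 : a ^ 2 ≤ ((k:ℝ) * Real.pi) ^ 2 := a_sq_lt.le.trans (k_sq hk)
  unfold gs
  apply ev_eq hev
  rw [← Complex.ofReal_pow, Real.sq_sqrt (by linarith)]
  push_cast; ring

lemma gs_eq {E : ℂ → ℂ} (hev : ∀ z, E (-z) = E z) {z s : ℂ} (h : s ^ 2 = z ^ 2 + (a:ℂ) ^ 2) :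
    gs E s = E z := by
  unfold gs
  apply ev_eq hev
  rw [h]; ring

/-- ZER for even functions -/
lemma zer_even {E : ℂ → ℂ} (hE : Differentiable ℂ E) (hev : ∀ z, E (-z) = E z) {C : ℝ} (hC : 0 ≤ C)
    (hb : ∀ z, ‖E z‖ ≤ C * Real.exp |z.im|)
    (h0 : ∀ (x : ℝ) (k : ℤ), k ≠ 0 → x ^ 2 = ((k:ℝ) * Real.pi) ^ 2 - a ^ 2 → E x = 0) :
    ∃ c : ℂ, ∀ z, E z = c * sw (z ^ 2) := by
  obtain ⟨c, hc⟩ := zer0 (gs_diff hE hev) (gs_even E) (by positivity) (gs_bound hC hb) (by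
    intro k hk
    rw [gs_node hev hk]
    apply h0 _ k hk
    exact Real.sq_sqrt (by linarith [a_sq_lt, k_sq hk]))
  refine ⟨c, fun z => ?_⟩
  have hs := sq_sqrt (z ^ 2 + (a:ℂ) ^ 2)
  rw [← gs_eq hev hs, hc, sw_eq hs]

/-- ZER: a bounded function of type 1 that vanishes at all nodes -/
theorem zer {K : ℂ → ℂ} (hK : Differentiable ℂ K) {C : ℝ} (hC : 0 ≤ C)
    (hb : ∀ z, ‖K z‖ ≤ C * Real.exp |z.im|)
    (h0 : ∀ (x : ℝ) (k : ℤ), k ≠ 0 → x ^ 2 = ((k:ℝ) * Real.pi) ^ 2 - a ^ 2 → K x = 0) :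
    ∃ α β : ℂ, ∀ z, K z = (α * z + β) * sw (z ^ 2) := by
  have hKn : Differentiable ℂ (fun z => K (-z)) := hK.comp differentiable_neg
  have h0' : ∀ (x : ℝ) (k : ℤ), k ≠ 0 → x ^ 2 = ((k:ℝ) * Real.pi) ^ 2 - a ^ 2 → K (-(x:ℂ)) = 0 := by
    intro x k hk hx
    have := h0 (-x) k hk (by rw [neg_sq]; exact hx)
    rwa [Complex.ofReal_neg] at this
  have hbn : ∀ z, ‖K (-z)‖ ≤ C * Real.exp |z.im| := by
    intro z
    have := hb (-z)
    rwa [Complex.neg_im, abs_neg] at this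
  -- even part
  obtain ⟨β, hβ⟩ := zer_even (E := fun z => (K z + K (-z)) / 2) ((hK.add hKn).div_const 2)
    (fun z => by simp only [neg_neg]; ring) hC (by
      intro z
      rw [norm_div, div_le_iff₀ (by simp)]
      have h1 := norm_add_le (K z) (K (-z))
      have h2 := hb z
      have h3 := hbn z
      have h4 : ‖(2:ℂ)‖ = 2 := by simp
      rw [h4]
      linarith) (by
      intro x k hk hx
      rw [h0 x k hk hx, h0' x k hk hx]; simp)
  -- odd part
  set O : ℂ → ℂ := fun z => (K z - K (-z)) / 2 with hO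
  have hOd : Differentiable ℂ O := (hK.sub hKn).div_const 2
  have hO0 : O 0 = 0 := by simp [hO]
  have hOb : ∀ z, ‖O z‖ ≤ C * Real.exp |z.im| := by
    intro z
    simp only [hO]
    rw [norm_div, div_le_iff₀ (by simp)]
    have h1 := norm_sub_le (K z) (K (-z))
    have h2 := hb z
    have h3 := hbn z
    have h4 : ‖(2:ℂ)‖ = 2 := by simp
    rw [h4]
    linarith
  set E2 : ℂ → ℂ := dslope O 0 with hE2
  have hE2d : Differentiable ℂ E2 := by
    have h : DifferentiableOn ℂ E2 univ :=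
      (Complex.differentiableOn_dslope (by simp)).2 hOd.differentiableOn
    exact fun z => (h z (mem_univ z)).differentiableAt (by simp)
  have hE2ne : ∀ z : ℂ, z ≠ 0 → E2 z = O z / z := by
    intro z hz
    rw [hE2, dslope_of_ne _ hz, slope_def_field, hO0, sub_zero, sub_zero]
  have hE2ev : ∀ z, E2 (-z) = E2 z := by
    intro z
    by_cases hz : z = 0
    · rw [hz, neg_zero]
    · rw [hE2ne z hz, hE2ne (-z) (neg_ne_zero.2 hz)]
      simp only [hO, neg_neg]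
      field_simp
      ring
  obtain ⟨B, hB⟩ := (isCompact_closedBall (0 : ℂ) 1).exists_bound_of_continuousOn
    hE2d.continuous.continuousOn
  have hE2b : ∀ z, ‖E2 z‖ ≤ (max C B) * Real.exp |z.im| := by
    intro z
    have hexp : 1 ≤ Real.exp |z.im| := Real.one_le_exp (abs_nonneg _)
    have hm : 0 ≤ max C B := le_max_of_le_left hC
    rcases le_total ‖z‖ 1 with h | h
    · have h1 := hB z (by simpa using h)
      have h2 : B ≤ max C B := le_max_right _ _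
      nlinarith
    · have hz : z ≠ 0 := by
        intro h0; rw [h0, norm_zero] at h; linarith
      rw [hE2ne z hz, norm_div]
      have h1 := hOb z
      have h2 : ‖O z‖ / ‖z‖ ≤ ‖O z‖ := div_le_self (norm_nonneg _) h
      have h3 : C ≤ max C B := le_max_left _ _
      nlinarith [Real.exp_pos |z.im|]
  obtain ⟨α, hα⟩ := zer_even hE2d hE2ev (le_max_of_le_left hC) hE2b (by
    intro x k hk hx
    have hx0 : (x:ℂ) ≠ 0 := by
      intro h
      have h' : x = 0 := by exact_mod_cast h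
      rw [h'] at hx
      have h1 := a_sq_lt
      have h2 := k_sq hk
      norm_num at hx
      linarith
    rw [hE2ne _ hx0]
    simp only [hO]
    rw [h0 x k hk hx, h0' x k hk hx]; simp)
  refine ⟨α, β, fun z => ?_⟩
  have h1 := hβ z
  have h2 : O z = z * (α * sw (z ^ 2)) := by
    rw [← hα z]
    by_cases hz : z = 0
    · rw [hz, hO0, zero_mul]
    · rw [hE2ne z hz]; field_simp
  have h3 : K z = (K z + K (-z)) / 2 + O z := by simp only [hO]; ring
  rw [h3, h1, h2]; ring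

end Pool.Agent.T9h80.EX
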